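import Pool.Agent.Y600.Circ.Defs
import Pool.Agent.U279.CR.Main

/-!
# Circuits that read the tables of two commutative rings: definitions
-/

set_option autoImplicit false

namespace Pool.Agent.U279.RC

open Pool.Agent.Y600.Circ (Circuit Table pairBits relabel numWirings)
open Equiv

/-- The addition table and the multiplication table of a commutative ring. -/
def rtab {W : Type} (R : CommRing W) : Table W × Table W :=
  (fun x y => x + y, fun x y => x * y)

/-- The bits of the tables of two rings: for each of the two rings, whether `w` is the sum and
whether `w` is the product of `u` and `v`. -/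
noncomputable def ringBits {W : Type} (x : (Table W × Table W) × (Table W × Table W)) :
    ((W × W × W) ⊕ (W × W × W)) ⊕ ((W × W × W) ⊕ (W × W × W)) → Bool :=
  Sum.elim (pairBits x.1) (pairBits x.2)

/-- The tables with the elements renamed. -/
def relabelR {W : Type} (σ : Perm W) (x : Table W × Table W) : Table W × Table W :=
  (relabel σ x.1, relabel σ x.2)

/-- The relabelings of the first ring. -/
def firstRelabelings (W : Type) :
    Set ((Table W × Table W) × (Table W × Table W) → (Table W × Table W) × (Table W × Table W)) :=
  Set.range fun (σ : Perm W) x => (relabelR σ x.1, x.2)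

variable {D L : Type}

/-- The action of a permutation on the names of the bits of one ring. -/
def mvBit {W : Type} (σ : Perm W) : (W × W × W) ⊕ (W × W × W) → (W × W × W) ⊕ (W × W × W) :=
  Sum.map (fun b => (σ b.1, σ b.2.1, σ b.2.2)) fun b => (σ b.1, σ b.2.1, σ b.2.2)

/-- The permutation `π` of the gates is an automorphism of the circuit that maps every bit of the
tables of the first ring to the bit with the elements moved by `σ` and fixes the bits of the
tables of the second ring. -/
structure IsAut {W : Type}
    (C : Circuit (((W × W × W) ⊕ (W × W × W)) ⊕ ((W × W × W) ⊕ (W × W × W))) D L)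
    (σ : Perm W) (π : Perm C.Gate) : Prop where
  read : ∀ g, C.read (π g) = (C.read g).map (Sum.map (mvBit σ) id)
  wires : ∀ g, C.wires (π g) = (C.wires g).map fun e => (e.1, π e.2)
  fn : ∀ g, C.fn (π g) = C.fn g
  out : π C.out = C.out

/-- A circuit is symmetric if every relabeling of the first ring extends to an automorphism. -/
def Symmetric {W : Type}
    (C : Circuit (((W × W × W) ⊕ (W × W × W)) ⊕ ((W × W × W) ⊕ (W × W × W))) D L) : Prop :=
  ∀ σ : Perm W, ∃ π : Perm C.Gate, IsAut C σ π

/-- The circuit decides isomorphism of the commutative rings with underlying set `W` that have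
the property `P`. -/
def DecidesOn {W : Type} (P : CommRing W → Prop)
    (C : Circuit (((W × W × W) ⊕ (W × W × W)) ⊕ ((W × W × W) ⊕ (W × W × W))) D L)
    (acc : Set D) : Prop :=
  ∀ R S : CommRing W, P R → P S → (C.output (ringBits (rtab R, rtab S)) ∈ acc ↔
    ∃ σ : Perm W, relabelR σ (rtab R) = rtab S)

/-- The ring is local of characteristic `p` and all products of three nonunits are zero. -/
def CubeZero (p : ℕ) {W : Type} (R : CommRing W) : Prop :=
  @Pool.Agent.U279.CR.LocalCubeZero p W R

end Pool.Agent.U279.RC
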