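import Pool.Agent.U279.RC.NonIso
import Pool.Agent.U279.CR.Act
import Pool.Agent.Y600.Circ.Engine

/-!
# The game on the rings
-/

set_option autoImplicit false
set_option linter.unusedSectionVars false

namespace Pool.Agent.U279.RC

open Module Finset Equiv
open Pool.Agent.U279.CR (TS TS_apply SymBil RE mk fc vc zc fc_mk vc_mk zc_mk RE_ext fc_add vc_add
  zc_add fc_zero vc_zero zc_zero fc_mul vc_mul zc_mul isUnit_iff bN bN_apply InS extendS startS
  eq_onS thS thS_apply)
open Pool.Agent.TH658.Sos (cB cB_add)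
open Pool.Agent.W879.GW (tot tot_apply tot_single evB evB_apply Expands)
open Pool.Agent.Y600.Circ (Game)

section

variable {F A : Type} [Field F] [AddCommGroup A] [Module F A] {g : ℕ}
  {B : Submodule F (Fin g → Dual F A)} {N N' : A →ₗ[F] (Fin g → Dual F A)}
  {J : Type} [AddCommGroup J] [Module F J]

/-- The shear. -/
def sh (M : A →ₗ[F] B) (a : RE (bJ J B N)) : RE (bJ J B N') :=
  mk _ (fc a) (xc a, cc a + M (xc a)) (zc a)

/-- The inverse shear. -/
def shn (M : A →ₗ[F] B) (a : RE (bJ J B N)) : RE (bJ J B N') :=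
  mk _ (fc a) (xc a, cc a - M (xc a)) (zc a)

theorem shn_sh (M : A →ₗ[F] B) (a : RE (bJ J B N)) :
    shn M (sh M a : RE (bJ J B N')) = a := by
  refine RE_ext4 rfl rfl ?_ rfl
  show cc a + M (xc a) - M (xc a) = cc a
  abel

theorem sh_shn (M : A →ₗ[F] B) (a : RE (bJ J B N)) :
    sh M (shn M a : RE (bJ J B N')) = a := by
  refine RE_ext4 rfl rfl ?_ rfl
  show cc a - M (xc a) + M (xc a) = cc a
  abel

theorem sh_inj (M : A →ₗ[F] B) :
    Function.Injective (sh M : RE (bJ J B N) → RE (bJ J B N')) := by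
  intro a b h
  rw [← shn_sh (N' := N') M a, h, shn_sh]

theorem sh_add (M : A →ₗ[F] B) (a b : RE (bJ J B N)) :
    (sh M (a + b) : RE (bJ J B N')) = sh M a + sh M b := by
  refine RE_ext4 rfl rfl ?_ rfl
  show cc a + cc b + M (xc a + xc b) = cc a + M (xc a) + (cc b + M (xc b))
  rw [map_add]
  abel

theorem sh_mul (M : A →ₗ[F] B) (a b : RE (bJ J B N))
    (h : TS (cB M) (xc a) (xc b) = TS N (xc a) (xc b)) :
    (sh M (a * b) : RE (bJ J B 0)) = sh M a * sh M b := by
  refine RE_ext4 rfl rfl ?_ ?_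
  · show (fc a • cc b + fc b • cc a) + M (fc a • xc b + fc b • xc a) =
      fc a • (cc b + M (xc b)) + fc b • (cc a + M (xc a))
    rw [map_add, map_smul, map_smul, smul_add, smul_add]
    abel
  · show zc (a * b) = fc a • zc b + fc b • zc a + (bJ J B 0).fn (xc a, cc a + M (xc a))
      (xc b, cc b + M (xc b))
    rw [zc_mul, bJ_apply, bJ_apply]
    congr 1
    refine Prod.ext ?_ rfl
    show (TS N (xc a) (xc b) + (evB (cc a : Fin g → Dual F A) (xc b) +
      evB (cc b : Fin g → Dual F A) (xc a))) =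
      (TS (0 : A →ₗ[F] (Fin g → Dual F A)) (xc a) (xc b) +
      (evB ((cc a + M (xc a) : B) : Fin g → Dual F A) (xc b) +
      evB ((cc b + M (xc b) : B) : Fin g → Dual F A) (xc a)))
    rw [← h]
    have h2 : TS (cB M) (xc a) (xc b) = evB ((M (xc a) : B) : Fin g → Dual F A) (xc b) +
      evB ((M (xc b) : B) : Fin g → Dual F A) (xc a) := rfl
    rw [h2, Submodule.coe_add, Submodule.coe_add, map_add, map_add, LinearMap.add_apply,
      LinearMap.add_apply, map_zero, LinearMap.zero_apply, LinearMap.zero_apply]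
    abel

end

section

variable {F A : Type} [Field F] [AddCommGroup A] [Module F A] [FiniteDimensional F A] {g K : ℕ}
  {q : Fin g → (Dual F A →ₗ[F] A)}
  {B : Submodule F (Fin g → Dual F A)} {N : A →ₗ[F] (Fin g → Dual F A)}
  {J : Type} [AddCommGroup J] [Module F J] {W : Type}

/-- The span of the components in `A` of the labelled elements. -/
def spS (e : W → RE (bJ J B N)) (S : Finset W) (σ : W → W) : Submodule F A :=
  Submodule.span F ((fun s => xc (e (σ s))) '' (S : Set W))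

theorem mem_spS (e : W → RE (bJ J B N)) {S : Finset W} (σ : W → W) {s : W} (hs : s ∈ S) :
    xc (e (σ s)) ∈ spS e S σ := Submodule.subset_span ⟨s, hs, rfl⟩

theorem finrank_spS (e : W → RE (bJ J B N)) (S : Finset W) (σ : W → W) :
    finrank F (spS e S σ) ≤ S.card := by
  classical
  have h1 := finrank_span_finset_le_card (R := F) (S.image fun s => xc (e (σ s)))
  rw [coe_image] at h1
  exact h1.trans card_image_le

theorem spS_mono (e : W → RE (bJ J B N)) {S S' : Finset W} (σ : W → W) (h : S ⊆ S') :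
    spS e S σ ≤ spS e S' σ :=
  Submodule.span_mono (Set.image_mono (coe_subset.2 h))

theorem spS_congr (e : W → RE (bJ J B N)) {S : Finset W} {σ σ' : W → W}
    (h : ∀ s ∈ S, σ' s = σ s) : spS e S σ' = spS e S σ := by
  unfold spS
  congr 1
  refine Set.image_congr fun s hs => ?_
  rw [h s hs]

/-- The solutions on a subspace. -/
def SolS (q : Fin g → (Dual F A →ₗ[F] A)) (K : ℕ) (φ₀ : Dual F A) (c₀ : Fin g → Dual F A)
    (V : Submodule F A) (M : A →ₗ[F] B) : Prop :=
  ∀ ξ : Dual F (A →ₗ[F] A →ₗ[F] (Fin g → F)), InS q K ξ V →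
    thS ξ M = ξ (TS (φ₀.smulRight c₀))

theorem SolS.mono {φ₀ : Dual F A} {c₀ : Fin g → Dual F A} {V V' : Submodule F A}
    {M : A →ₗ[F] B} (h : SolS q K φ₀ c₀ V' M) (hV : V ≤ V') : SolS q K φ₀ c₀ V M :=
  fun ξ hξ => h ξ (hξ.mono hV)

theorem SolS.extend (hsym : ∀ (i : Fin g) (φ ψ : Dual F A), ψ (q i φ) = φ (q i ψ))
    (hE : Expands q (4 * K)) (hB : B = LinearMap.ker (tot q)) {φ₀ : Dual F A}
    {c₀ : Fin g → Dual F A} {V : Submodule F A} {M : A →ₗ[F] B} (h : SolS q K φ₀ c₀ V M)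
    (V' : Submodule F A) (hV' : finrank F V' ≤ K) :
    ∃ M' : A →ₗ[F] B, SolS q K φ₀ c₀ V' M' ∧ ∀ w ∈ V, M' w = M w := by
  have hBm : ∀ c ∈ B, tot q c = 0 := by
    intro c hc
    rw [hB] at hc
    exact LinearMap.mem_ker.1 hc
  obtain ⟨M₁, h1, h2, h3⟩ := extendS hsym hE (TS (φ₀.smulRight c₀)) V V' hV' (cB M)
    (fun x => hBm _ (M x).2) h
  have h1' : ∀ x, M₁ x ∈ B := by
    intro x
    rw [hB]
    exact h1 x
  have h4 : cB (LinearMap.codRestrict B M₁ h1') = M₁ := by
    ext x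
    rfl
  refine ⟨LinearMap.codRestrict B M₁ h1', fun ξ hξ => ?_, fun x hx => ?_⟩
  · rw [thS_apply, h4]
    exact h3 ξ hξ
  · exact Subtype.ext (h2 x hx)

theorem SolS.bot (hsym : ∀ (i : Fin g) (φ ψ : Dual F A), ψ (q i φ) = φ (q i ψ))
    (hE : Expands q (4 * K)) (φ₀ : Dual F A) (c₀ : Fin g → Dual F A) :
    SolS q K φ₀ c₀ ⊥ (0 : A →ₗ[F] B) := by
  intro ξ hξ
  have h := startS hsym hE φ₀ c₀ ξ hξ
  rw [thS_apply, ← h]
  rfl

variable [Fintype W] [DecidableEq W]

/-- The game given by the shears. -/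
noncomputable def game (hsym : ∀ (i : Fin g) (φ ψ : Dual F A), ψ (q i φ) = φ (q i ψ))
    (hE : Expands q (4 * K)) (hB : B = LinearMap.ker (tot q)) (φ₀ : Dual F A)
    (c₀ : Fin g → Dual F A) (e : W ≃ RE (bJ J B (φ₀.smulRight c₀))) (e' : W ≃ RE (bJ J B 0)) :
    Game W K where
  R S σ τ := ∃ M : A →ₗ[F] B, SolS q K φ₀ c₀ (spS e S σ) M ∧ ∀ s ∈ S, e' (τ s) = sh M (e (σ s))
  congr := by
    rintro S σ σ' τ τ' ⟨M, hM, hMS⟩ h1 h2
    refine ⟨M, ?_, fun s hs => ?_⟩
    · rw [spS_congr e h1]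
      exact hM
    · rw [h1 s hs, h2 s hs]
      exact hMS s hs
  mono := by
    rintro S S' σ τ ⟨M, hM, hMS⟩ h
    exact ⟨M, hM.mono (spS_mono e σ h), fun s hs => hMS s (h hs)⟩
  start := by
    intro σ τ
    refine ⟨0, ?_, fun s hs => absurd hs (notMem_empty s)⟩
    have h1 : spS e ∅ σ = ⊥ := by
      unfold spS
      simp
    rw [h1]
    exact SolS.bot hsym hE φ₀ c₀
  ext := by
    rintro S σ τ ⟨M, hM, hMS⟩ hc t ht
    have hex : ∀ x : A, ∃ M' : A →ₗ[F] B,
        SolS q K φ₀ c₀ (spS e S σ ⊔ Submodule.span F {x}) M' ∧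
        ∀ w ∈ spS e S σ, M' w = M w := by
      intro x
      refine hM.extend hsym hE hB _ ?_
      have h1 := Submodule.finrank_add_le_finrank_add_finrank (spS e S σ)
        (Submodule.span F ({x} : Set A))
      have h2 := finrank_spS e S σ
      have h3 : finrank F (Submodule.span F ({x} : Set A)) ≤ 1 := by
        have h4 := finrank_span_finset_le_card (R := F) ({x} : Finset A)
        rw [coe_singleton, card_singleton] at h4
        exact h4
      omega
    choose M' hM' hag using hex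
    let s1 : RE (bJ J B (φ₀.smulRight c₀)) ≃ RE (bJ J B 0) :=
      ⟨fun a => sh (M' (xc a)) a, fun a => shn (M' (xc a)) a, fun a => shn_sh _ a,
        fun a => sh_shn _ a⟩
    have hs1 : ∀ a, s1 a = sh (M' (xc a)) a := fun a => rfl
    let φ : Perm W := e.trans (s1.trans e'.symm)
    have hφ : ∀ w, e' (φ w) = sh (M' (xc (e w))) (e w) := fun w => by
      show e' (e'.symm (s1 (e w))) = _
      rw [Equiv.apply_symm_apply, hs1]
    have hold : ∀ (x : A) (s : W), s ∈ S →
        (sh (M' x) (e (σ s)) : RE (bJ J B 0)) = sh M (e (σ s)) := by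
      intro x s hs
      refine RE_ext4 rfl rfl ?_ rfl
      show cc (e (σ s)) + M' x (xc (e (σ s))) = cc (e (σ s)) + M (xc (e (σ s)))
      rw [hag x _ (mem_spS e σ hs)]
    refine ⟨φ, fun s hs => ?_, fun σ' τ' h1 h2 h3 => ?_⟩
    · refine e'.injective ?_
      rw [hφ, hold _ s hs, hMS s hs]
    · refine ⟨M' (xc (e (σ' t))), (hM' (xc (e (σ' t)))).mono ?_, fun s hs => ?_⟩
      · unfold spS
        rw [Submodule.span_le]
        rintro _ ⟨s, hs, rfl⟩
        rcases mem_insert.1 (mem_coe.1 hs) with rfl | hs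
        · exact Submodule.mem_sup_right (Submodule.mem_span_singleton_self _)
        · refine Submodule.mem_sup_left ?_
          show xc (e (σ' s)) ∈ _
          rw [h1 s hs]
          exact mem_spS e σ hs
      · rcases mem_insert.1 hs with rfl | hs
        · rw [h3, hφ]
        · rw [h1 s hs, h2 s hs, hMS s hs, hold _ s hs]

/-- Sums are preserved. -/
theorem game_add (hsym : ∀ (i : Fin g) (φ ψ : Dual F A), ψ (q i φ) = φ (q i ψ))
    (hE : Expands q (4 * K)) (hB : B = LinearMap.ker (tot q)) (φ₀ : Dual F A)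
    (c₀ : Fin g → Dual F A) (e : W ≃ RE (bJ J B (φ₀.smulRight c₀))) (e' : W ≃ RE (bJ J B 0))
    {m m' : W → W → W} (hm : ∀ u v, e (m u v) = e u + e v)
    (hm' : ∀ u v, e' (m' u v) = e' u + e' v) {σ τ : Perm W} (u v w : W)
    (h : (game hsym hE hB φ₀ c₀ e e').R {u, v, w} σ τ) :
    σ.symm (m (σ u) (σ v)) = w ↔ τ.symm (m' (τ u) (τ v)) = w := by
  obtain ⟨M, hM, hMS⟩ := h
  rw [Equiv.symm_apply_eq, Equiv.symm_apply_eq, ← e.injective.eq_iff, ← e'.injective.eq_iff, hm,
    hm', hMS u (by simp), hMS v (by simp), hMS w (by simp), ← sh_add, (sh_inj M).eq_iff]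

/-- Products are preserved. -/
theorem game_mul (hK : 1 ≤ K) (hsym : ∀ (i : Fin g) (φ ψ : Dual F A), ψ (q i φ) = φ (q i ψ))
    (hE : Expands q (4 * K)) (hB : B = LinearMap.ker (tot q)) (φ₀ : Dual F A)
    (c₀ : Fin g → Dual F A) (e : W ≃ RE (bJ J B (φ₀.smulRight c₀))) (e' : W ≃ RE (bJ J B 0))
    {m m' : W → W → W} (hm : ∀ u v, e (m u v) = e u * e v)
    (hm' : ∀ u v, e' (m' u v) = e' u * e' v) {σ τ : Perm W} (u v w : W)
    (h : (game hsym hE hB φ₀ c₀ e e').R {u, v, w} σ τ) :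
    σ.symm (m (σ u) (σ v)) = w ↔ τ.symm (m' (τ u) (τ v)) = w := by
  obtain ⟨M, hM, hMS⟩ := h
  have h1 : (sh M (e (σ u) * e (σ v)) : RE (bJ J B 0)) = sh M (e (σ u)) * sh M (e (σ v)) :=
    sh_mul M _ _ (eq_onS hK (TS (φ₀.smulRight c₀)) _ _ hM (mem_spS e σ (by simp))
      (mem_spS e σ (by simp)))
  rw [Equiv.symm_apply_eq, Equiv.symm_apply_eq, ← e.injective.eq_iff, ← e'.injective.eq_iff, hm,
    hm', hMS u (by simp), hMS v (by simp), hMS w (by simp), ← h1, (sh_inj M).eq_iff]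

end

end Pool.Agent.U279.RC
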