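import Pool.Agent.U279.RC.Defs
import Pool.Agent.U279.RC.Game
import Pool.Agent.Y600.Circ.Lower

/-!
# Lower bounds for circuits that decide isomorphism of commutative rings
-/

set_option autoImplicit false
set_option linter.unusedSectionVars false

namespace Pool.Agent.U279.RC

open Module Finset Equiv
open Pool.Agent.U279.CR (TS SymBil RE card_RE exists_expanderS LocalCubeZero isLocalRing charP
  cube_zero finrank_kerS)
open Pool.Agent.W879.GW (tot Expands exists_target)
open Pool.Agent.Y600.Circ (Circuit Table pairBits relabel numWirings wirings view IsRight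
  output_distribution)

theorem isRight_relabelR {W : Type} [Fintype W] [DecidableEq W] :
    IsRight fun (σ : Perm W) (x : (Table W × Table W) × (Table W × Table W)) =>
      (relabelR σ x.1, x.2) where
  one x := rfl
  mul σ τ x := rfl

theorem localCubeZero_equiv {p : ℕ} {R S : Type} [CommRing R] [CommRing S] (θ : R ≃+* S)
    (h : LocalCubeZero p R) : LocalCubeZero p S := by
  obtain ⟨h1, h2, h3⟩ := h
  refine ⟨θ.isLocalRing, charP_of_injective_ringHom (f := θ.toRingHom) θ.injective p, ?_⟩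
  have hu : ∀ x : S, ¬ IsUnit x → ¬ IsUnit (θ.symm x) := fun x hx hx' =>
    hx ((MulEquiv.isUnit_map θ.symm).1 hx')
  intro x y z hx hy hz
  refine θ.symm.injective ?_
  rw [map_mul, map_mul, map_zero]
  exact h3 _ _ _ (hu x hx) (hu y hy) (hu z hz)

theorem cubeZero_equiv {p : ℕ} {Q R : Type} [CommRing R] (e : Q ≃ R) (h : LocalCubeZero p R) :
    CubeZero p (@Equiv.commRing _ _ e _) := by
  let _ : CommRing Q := @Equiv.commRing _ _ e _
  exact localCubeZero_equiv (@Equiv.ringEquiv _ _ e _ _).symm h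

/-- The two rings on a given set and the output distributions of circuits. -/
theorem main (p : ℕ) [Fact p.Prime] (k r : ℕ) (hk : 1 ≤ k) (hr : 2100 * k ≤ r)
    (Q : Type) [Fintype Q] [DecidableEq Q] (hQ : Fintype.card Q = p ^ r) :
    ∃ R S : CommRing Q, CubeZero p R ∧ CubeZero p S ∧
      (∀ σ : Perm Q, relabelR σ (rtab R) ≠ rtab S) ∧
      ∀ (D L : Type)
        (C : Circuit (((Q × Q × Q) ⊕ (Q × Q × Q)) ⊕ ((Q × Q × Q) ⊕ (Q × Q × Q))) D L),
        numWirings ringBits C (firstRelabelings Q) < (p ^ r) ^ k →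
        ∀ (t : Table Q × Table Q) (Mo : Type) (_ : AddCommMonoid Mo) (φ : D → Mo),
          ∑ σ : Perm Q, φ (C.output (ringBits (relabelR σ (rtab R), t))) =
            ∑ σ : Perm Q, φ (C.output (ringBits (relabelR σ (rtab S), t))) := by
  have hp : p.Prime := Fact.out
  obtain ⟨m, hm⟩ : ∃ m, m = (r - 7) / 36 := ⟨_, rfl⟩
  obtain ⟨j, hj⟩ : ∃ j, j = (r - 7) % 36 := ⟨_, rfl⟩
  have hmj : 36 * m + 7 + j = r := by omega
  obtain ⟨K, hK⟩ : ∃ K, K = 14 * k := ⟨_, rfl⟩
  have hmK : 4 * K ≤ m := by omega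
  obtain ⟨q, hsym, hEm, htr⟩ := exists_expanderS (F := ZMod p) m
  have hE : Expands q (4 * K) := fun u hu => hEm u (by omega)
  have hfr : finrank (ZMod p) (Fin (6 * m) → ZMod p) = 6 * m := Module.finrank_fin_fun _
  obtain ⟨φ₀, c₀, h0⟩ := exists_target hE (by omega) (by
    rw [hfr]
    omega)
  have hkerfr := finrank_kerS hsym hE (by omega)
  obtain ⟨B, hB⟩ : ∃ B : Submodule (ZMod p) (Fin 6 → Dual (ZMod p) (Fin (6 * m) → ZMod p)),
    B = LinearMap.ker (tot q) := ⟨_, rfl⟩
  have hfin : Finite (Dual (ZMod p) (Fin (6 * m) → ZMod p)) := Module.finite_of_finite (ZMod p)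
  have hfin2 : Finite (Fin 6 → Dual (ZMod p) (Fin (6 * m) → ZMod p)) := inferInstance
  have hfinB : Finite B := inferInstance
  have : Fintype B := Fintype.ofFinite B
  have hfrV : finrank (ZMod p) ((Fin (6 * m) → ZMod p) × B) = 36 * m := by
    rw [Module.finrank_prod, hB]
    omega
  have hcard : ∀ N : (Fin (6 * m) → ZMod p) →ₗ[ZMod p] (Fin 6 → Dual (ZMod p)
      (Fin (6 * m) → ZMod p)), Fintype.card (RE (bJ (Fin j → ZMod p) B N)) = p ^ r := by
    intro N
    have h1 : Fintype.card ((Fin (6 * m) → ZMod p) × B) = p ^ (36 * m) := by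
      rw [← Nat.card_eq_fintype_card, Module.natCard_eq_pow_finrank (K := ZMod p), Nat.card_zmod,
        hfrV]
    rw [card_RE, h1, Fintype.card_prod, Fintype.card_fun, Fintype.card_fun, ZMod.card,
      Fintype.card_fin, Fintype.card_fin, ← pow_add, ← pow_add, ← pow_succ', ← hmj]
    congr 1
    ring
  have ham : finrank (ZMod p) (Fin (6 * m) → ZMod p) < (6 - 1) * (2 * m) := by
    rw [hfr]
    omega
  have hiso := not_iso (J := Fin j → ZMod p) hsym htr hEm (by norm_num) ham hB φ₀ c₀ h0
  obtain ⟨e⟩ : Nonempty (Q ≃ RE (bJ (Fin j → ZMod p) B (φ₀.smulRight c₀))) :=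
    Fintype.card_eq.1 (hQ.trans (hcard _).symm)
  obtain ⟨e'⟩ : Nonempty (Q ≃ RE (bJ (Fin j → ZMod p) B 0)) :=
    Fintype.card_eq.1 (hQ.trans (hcard _).symm)
  let R : CommRing Q := @Equiv.commRing _ _ e inferInstance
  let S : CommRing Q := @Equiv.commRing _ _ e' inferInstance
  have hRa : ∀ u v, e ((rtab R).1 u v) = e u + e v := fun u v => e.apply_symm_apply _
  have hRm : ∀ u v, e ((rtab R).2 u v) = e u * e v := fun u v => e.apply_symm_apply _
  have hSa : ∀ u v, e' ((rtab S).1 u v) = e' u + e' v := fun u v => e'.apply_symm_apply _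
  have hSm : ∀ u v, e' ((rtab S).2 u v) = e' u * e' v := fun u v => e'.apply_symm_apply _
  have hloc : ∀ N : (Fin (6 * m) → ZMod p) →ₗ[ZMod p] (Fin 6 → Dual (ZMod p)
      (Fin (6 * m) → ZMod p)), LocalCubeZero p (RE (bJ (Fin j → ZMod p) B N)) :=
    fun N => ⟨isLocalRing _, charP _ p, cube_zero⟩
  refine ⟨R, S, cubeZero_equiv e (hloc _), cubeZero_equiv e' (hloc _), ?_, ?_⟩
  · intro σ hσ
    have h1 : ∀ u v, e (σ ((rtab S).1 u v)) = e (σ u) + e (σ v) := fun u v => by
      have h2 : (rtab S).1 u v = σ.symm ((rtab R).1 (σ u) (σ v)) := by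
        rw [← hσ]
        rfl
      rw [h2, apply_symm_apply, hRa]
    have h3 : ∀ u v, e (σ ((rtab S).2 u v)) = e (σ u) * e (σ v) := fun u v => by
      have h2 : (rtab S).2 u v = σ.symm ((rtab R).2 (σ u) (σ v)) := by
        rw [← hσ]
        rfl
      rw [h2, apply_symm_apply, hRm]
    let θ : RE (bJ (Fin j → ZMod p) B 0) ≃+* RE (bJ (Fin j → ZMod p) B (φ₀.smulRight c₀)) :=
      { toEquiv := (e'.symm.trans σ).trans e
        map_mul' := fun x y => by
          show e (σ (e'.symm (x * y))) = e (σ (e'.symm x)) * e (σ (e'.symm y))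
          rw [← h3]
          congr 2
          rw [symm_apply_eq, hSm, apply_symm_apply, apply_symm_apply]
        map_add' := fun x y => by
          show e (σ (e'.symm (x + y))) = e (σ (e'.symm x)) + e (σ (e'.symm y))
          rw [← h1]
          congr 2
          rw [symm_apply_eq, hSa, apply_symm_apply, apply_symm_apply] }
    exact hiso.false θ.symm
  · intro D L Ci hnum t Mo _ φ
    let A' := game hsym hE hB φ₀ c₀ e e'
    obtain ⟨s, hs⟩ : ∃ s, s = r / 2 := ⟨_, rfl⟩
    have hp2 : 2 ≤ p := hp.two_le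
    have e1 : s < 2 ^ s := Nat.lt_two_pow_self
    have e2 : 2 ^ s ≤ p ^ s := Nat.pow_le_pow_left hp2 s
    have e3 : p ^ s * p ^ s ≤ p ^ r := by
      rw [← pow_add]
      exact Nat.pow_le_pow_right (by omega) (by omega)
    have e4 : 6 * k * p ^ s ≤ p ^ s * p ^ s := Nat.mul_le_mul_right _ (by omega)
    have e5 : 1 * p ^ s ≤ p ^ s * p ^ s := Nat.mul_le_mul_right _ (by omega)
    refine output_distribution (X := (Table Q × Table Q) × (Table Q × Table Q))
      (x₀ := (rtab R, t)) (y₀ := (rtab S, t)) (N := p ^ s) (m := 3 * k)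
      isRight_relabelR ringBits Ci A' ?_ ?_ ?_ ?_ ?_ ?_ ?_ ?_ φ
    · rw [hQ]
      omega
    · omega
    · rintro ((⟨u, v, w⟩ | ⟨u, v, w⟩) | b)
      · refine ⟨{u, v, w}, card_le_three, fun σ τ h => ?_⟩
        have h1 := game_add hsym hE hB φ₀ c₀ e e' hRa hSa u v w h
        simp only [ringBits, pairBits, Sum.elim_inl]
        rw [decide_eq_decide]
        exact h1
      · refine ⟨{u, v, w}, card_le_three, fun σ τ h => ?_⟩
        have h1 := game_mul (by omega) hsym hE hB φ₀ c₀ e e' hRm hSm u v w h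
        simp only [ringBits, pairBits, Sum.elim_inl, Sum.elim_inr]
        rw [decide_eq_decide]
        exact h1
      · exact ⟨∅, by simp, fun σ τ _ => rfl⟩
    · omega
    · omega
    · omega
    · rw [hQ]
      have e6 : 2 * (3 * k) * p ^ s = 6 * k * p ^ s := by ring
      omega
    · refine lt_of_lt_of_le hnum ?_
      rw [← pow_mul, ← pow_mul]
      refine Nat.pow_le_pow_right (by omega) ?_
      calc r * k ≤ (3 * s) * k := Nat.mul_le_mul_right _ (by omega)
        _ = s * (3 * k) := by ring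

/-- **The number of wirings of a circuit which decides isomorphism of rings.** -/
theorem lower (p : ℕ) (hp : p.Prime) (k r : ℕ) (hk : 1 ≤ k)
    (hr : 2100 * k ≤ r) (Q : Type) [Fintype Q] (hQ : Fintype.card Q = p ^ r) (D L : Type)
    (C : Circuit (((Q × Q × Q) ⊕ (Q × Q × Q)) ⊕ ((Q × Q × Q) ⊕ (Q × Q × Q))) D L) (acc : Set D)
    (hC : DecidesOn (CubeZero p) C acc) :
    (p ^ r) ^ k ≤ numWirings ringBits C (firstRelabelings Q) := by
  classical
  by_contra hcon
  push Not at hcon
  have : Fact p.Prime := ⟨hp⟩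
  obtain ⟨R, S, hR, hS, hiso, hdist⟩ := main p k r hk hr Q hQ
  have h3 := hdist D L C hcon (rtab R) ℕ inferInstance (fun d => if d ∈ acc then 1 else 0)
  have hT : ∀ (T : CommRing Q) (σ : Perm Q), CubeZero p T →
      ∃ T' : CommRing Q, CubeZero p T' ∧ rtab T' = relabelR σ (rtab T) := fun T σ hT =>
    ⟨@Equiv.commRing _ _ σ T, @cubeZero_equiv p Q Q T σ hT, rfl⟩
  have h4 : ∀ σ : Perm Q, C.output (ringBits (relabelR σ (rtab R), rtab R)) ∈ acc := by
    intro σ
    obtain ⟨T', hT', hTe⟩ := hT R σ hR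
    rw [← hTe, hC T' R hT' hR]
    refine ⟨σ⁻¹, ?_⟩
    rw [hTe]
    show relabelR (σ * σ⁻¹) (rtab R) = rtab R
    rw [mul_inv_cancel]
    rfl
  have h5 : ∀ σ : Perm Q, C.output (ringBits (relabelR σ (rtab S), rtab R)) ∉ acc := by
    intro σ
    obtain ⟨T', hT', hTe⟩ := hT S σ hS
    rw [← hTe, hC T' R hT' hR]
    rintro ⟨τ, hτ⟩
    rw [hTe] at hτ
    have hτ' : relabelR (σ * τ) (rtab S) = rtab R := hτ
    refine hiso (σ * τ)⁻¹ ?_
    rw [← hτ']
    show relabelR ((σ * τ) * (σ * τ)⁻¹) (rtab S) = rtab S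
    rw [mul_inv_cancel]
    rfl
  rw [sum_congr rfl fun σ _ => if_pos (h4 σ), sum_congr (s₁ := univ) rfl fun σ _ => if_neg (h5 σ),
    sum_const, sum_const, card_univ, smul_eq_mul, smul_eq_mul, mul_one, mul_zero] at h3
  exact Fintype.card_ne_zero h3

theorem pairBits_relabelR {W : Type} (σ : Perm W) (x : Table W × Table W)
    (β : (W × W × W) ⊕ (W × W × W)) :
    pairBits x (mvBit σ β) = pairBits (relabelR σ x) β := by
  rcases β with b | b
  · simp only [pairBits, mvBit, Sum.map_inl, Sum.elim_inl]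
    rw [decide_eq_decide]
    unfold relabelR relabel
    rw [Equiv.symm_apply_eq]
  · simp only [pairBits, mvBit, Sum.map_inr, Sum.elim_inr]
    rw [decide_eq_decide]
    unfold relabelR relabel
    rw [Equiv.symm_apply_eq]

theorem ringBits_relabel {W : Type} (σ : Perm W)
    (x : (Table W × Table W) × (Table W × Table W))
    (β : ((W × W × W) ⊕ (W × W × W)) ⊕ ((W × W × W) ⊕ (W × W × W))) :
    ringBits x (Sum.map (mvBit σ) id β) = ringBits (relabelR σ x.1, x.2) β := by
  rcases β with b | b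
  · exact pairBits_relabelR σ x.1 b
  · rfl

theorem IsAut.eval_eq {D L W : Type}
    {C : Circuit (((W × W × W) ⊕ (W × W × W)) ⊕ ((W × W × W) ⊕ (W × W × W))) D L} {σ : Perm W}
    {π : Perm C.Gate} (h : IsAut C σ π) (g : C.Gate)
    (x : (Table W × Table W) × (Table W × Table W)) :
    C.eval (ringBits x) (π g) = C.eval (ringBits (relabelR σ x.1, x.2)) g := by
  induction hr : C.rank g using Nat.strong_induction_on generalizing g with
  | _ r ih =>
    rw [Pool.Agent.Y600.Circ.eval_eq, Pool.Agent.Y600.Circ.eval_eq, h.fn, h.read, h.wires,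
      Option.map_map, Multiset.map_map]
    have h1 : ringBits x ∘ Sum.map (mvBit σ) id = ringBits (relabelR σ x.1, x.2) :=
      funext fun β => ringBits_relabel σ x β
    rw [h1]
    refine congrArg (C.fn g _) (Multiset.map_congr rfl fun e he => ?_)
    exact congrArg (Prod.mk e.1) (ih (C.rank e.2) (by rw [← hr]; exact C.rank_lt g e he) e.2 rfl)

/-- In a symmetric circuit the number of wirings is at most the number of gates. -/
theorem numWirings_le_size {D L W : Type}
    (C : Circuit (((W × W × W) ⊕ (W × W × W)) ⊕ ((W × W × W) ⊕ (W × W × W))) D L)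
    (h : Symmetric C) : numWirings ringBits C (firstRelabelings W) ≤ C.size := by
  let _ := C.finite
  have h1 : wirings ringBits C (firstRelabelings W) ⊆
      Set.range fun g => view ringBits C g id := by
    rintro _ ⟨g, f, ⟨σ, rfl⟩, rfl⟩
    obtain ⟨π, hπ⟩ := h σ
    refine ⟨π g, ?_⟩
    simp only [view]
    rw [hπ.read, hπ.wires, Option.map_map, Multiset.map_map]
    simp only [Function.comp_def, id, hπ.eval_eq, ringBits_relabel]
  have h2 : Nat.card (Set.range fun g => view ringBits C g id) ≤ Nat.card C.Gate := by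
    have := Set.finite_range fun g => view ringBits C g id
    exact Nat.card_le_card_of_surjective (Set.rangeFactorization fun g => view ringBits C g id)
      Set.rangeFactorization_surjective
  refine (Nat.card_mono (Set.finite_range _) h1).trans (h2.trans ?_)
  rw [Nat.card_eq_fintype_card]
  exact le_rfl

end Pool.Agent.U279.RC
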