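import Pool.Agent.U279.RC.Main
import Pool.Agent.Y600.Circ.UpperMain

/-!
# A symmetric circuit which decides isomorphism of rings
-/

set_option autoImplicit false
set_option linter.unusedSectionVars false

namespace Pool.Agent.U279.RC

open Finset Equiv
open Pool.Agent.Y600.Circ (Circuit Table pairBits relabel fAnd fOr fTest map_univ_reindex)

variable {W : Type} {ℓ n : ℕ}

/-- The gates. -/
inductive Gt (W : Type) (ℓ n : ℕ) : Type
  | bit (u v w : W)
  | mbit (u v w : W)
  | reach (t : Fin (n + 2)) (a b : Fin ℓ → W) (x y : W)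
  | step (t : Fin (n + 2)) (a b : Fin ℓ → W) (i : Fin ℓ) (x y x' y' : W)
  | left (a b : Fin ℓ → W) (x : W)
  | right (a b : Fin ℓ → W) (y : W)
  | count (a b : Fin ℓ → W)
  | mul (a b : Fin ℓ → W) (x y x' y' x'' y'' : W)
  | mex (a b : Fin ℓ → W) (x x' : W)
  | test (a b : Fin ℓ → W)
  | out

/-- The gates as a sum: the gates of the circuit for groups and the new gates. -/
def gtEquiv (W : Type) (ℓ n : ℕ) : Gt W ℓ n ≃
    Pool.Agent.Y600.Circ.Gt W ℓ n ⊕ (W × W × W) ⊕
      ((Fin ℓ → W) × (Fin ℓ → W) × W × W × W × W × W × W) ⊕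
      ((Fin ℓ → W) × (Fin ℓ → W) × W × W) where
  toFun
    | .bit u v w => .inl (.bit u v w)
    | .reach t a b x y => .inl (.reach t a b x y)
    | .step t a b i x y x' y' => .inl (.step t a b i x y x' y')
    | .left a b x => .inl (.left a b x)
    | .right a b y => .inl (.right a b y)
    | .count a b => .inl (.count a b)
    | .test a b => .inl (.test a b)
    | .out => .inl .out
    | .mbit u v w => .inr (.inl (u, v, w))
    | .mul a b x y x' y' x'' y'' => .inr (.inr (.inl (a, b, x, y, x', y', x'', y'')))
    | .mex a b x x' => .inr (.inr (.inr (a, b, x, x')))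
  invFun
    | .inl (.bit u v w) => .bit u v w
    | .inl (.reach t a b x y) => .reach t a b x y
    | .inl (.step t a b i x y x' y') => .step t a b i x y x' y'
    | .inl (.left a b x) => .left a b x
    | .inl (.right a b y) => .right a b y
    | .inl (.count a b) => .count a b
    | .inl (.test a b) => .test a b
    | .inl .out => .out
    | .inr (.inl (u, v, w)) => .mbit u v w
    | .inr (.inr (.inl (a, b, x, y, x', y', x'', y''))) => .mul a b x y x' y' x'' y''
    | .inr (.inr (.inr (a, b, x, x'))) => .mex a b x x'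
  left_inv := by
    rintro (_ | _ | _ | _ | _ | _ | _ | _ | _ | _ | _) <;> rfl
  right_inv := by
    rintro ((_ | _ | _ | _ | _ | _ | _ | _) | _ | _ | _) <;> rfl

/-- The preceding level. -/
def pr (t : Fin (n + 2)) : Fin (n + 2) := ⟨t.1 - 1, by omega⟩

variable [Fintype W]

/-- The wires. -/
def wiresG : Gt W ℓ n → Multiset (Unit × Gt W ℓ n)
  | .bit _ _ _ => 0
  | .mbit _ _ _ => 0
  | .reach t a b x y => if t.1 = 0 then {((), .bit y y y)} else
      ((), .reach (pr t) a b x y) ::ₘ (univ : Finset (Fin ℓ × W × W)).val.map fun z =>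
        ((), .step (pr t) a b z.1 z.2.1 z.2.2 x y)
  | .step t a b i x y _ y' => {((), .reach t a b x y), ((), .bit y (b i) y')}
  | .left a b x => (univ : Finset W).val.map fun y => ((), .reach ⟨n, by omega⟩ a b x y)
  | .right a b y => (univ : Finset W).val.map fun x => ((), .reach ⟨n, by omega⟩ a b x y)
  | .count a b => (univ : Finset (W × W)).val.map fun z =>
      ((), .reach ⟨n + 1, by omega⟩ a b z.1 z.2)
  | .mul a b x y x' y' x'' y'' => {((), .reach ⟨n, by omega⟩ a b x y),
      ((), .reach ⟨n, by omega⟩ a b x' y'), ((), .reach ⟨n, by omega⟩ a b x'' y''),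
      ((), .mbit y y' y'')}
  | .mex a b x x' => (univ : Finset (W × W × W × W)).val.map fun z =>
      ((), .mul a b x z.1 x' z.2.1 z.2.2.1 z.2.2.2)
  | .test a b => ((), .count a b) ::ₘ (((univ : Finset W).val.map fun x => ((), .left a b x)) +
      ((univ : Finset W).val.map fun y => ((), .right a b y)) +
      ((univ : Finset (W × W)).val.map fun z => ((), .mex a b z.1 z.2)))
  | .out => (univ : Finset ((Fin ℓ → W) × (Fin ℓ → W))).val.map fun z => ((), .test z.1 z.2)

/-- The bits which are read. -/
def readG : Gt W ℓ n → Option (((W × W × W) ⊕ (W × W × W)) ⊕ ((W × W × W) ⊕ (W × W × W)))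
  | .bit u v w => some (.inr (.inl (u, v, w)))
  | .mbit u v w => some (.inr (.inr (u, v, w)))
  | .reach t _ _ x _ => if t.1 = 0 then some (.inl (.inl (x, x, x))) else none
  | .step _ a _ i x _ x' _ => some (.inl (.inl (x, a i, x')))
  | .mul _ _ x _ x' _ x'' _ => some (.inl (.inr (x, x', x'')))
  | _ => none

/-- The ranks. -/
def rankG : Gt W ℓ n → ℕ
  | .bit _ _ _ => 0
  | .mbit _ _ _ => 0
  | .reach t _ _ _ _ => 2 * t.1 + 1
  | .step t _ _ _ _ _ _ _ => 2 * t.1 + 2
  | .left _ _ _ => 2 * n + 4
  | .right _ _ _ => 2 * n + 4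
  | .count _ _ => 2 * n + 4
  | .mul _ _ _ _ _ _ _ _ => 2 * n + 4
  | .mex _ _ _ _ => 2 * n + 5
  | .test _ _ => 2 * n + 6
  | .out => 2 * n + 7

/-- The functions at the gates. -/
def fnG (N : ℕ) : Gt W ℓ n → Option Bool → Multiset (Unit × Bool) → Bool
  | .bit _ _ _ => fAnd
  | .mbit _ _ _ => fAnd
  | .mul _ _ _ _ _ _ _ _ => fAnd
  | .mex _ _ _ _ => fOr
  | .reach t _ _ _ _ => if t.1 = 0 then fAnd else fOr
  | .step _ _ _ _ _ _ _ _ => fAnd
  | .left _ _ _ => fOr
  | .right _ _ _ => fOr
  | .count _ _ => fTest N
  | .test _ _ => fAnd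
  | .out => fOr

theorem rank_ltG (g : Gt W ℓ n) (e : Unit × Gt W ℓ n) (he : e ∈ wiresG g) :
    rankG e.2 < rankG g := by
  cases g with
  | bit u v w => simp [wiresG] at he
  | mbit u v w => simp [wiresG] at he
  | mul a b x y x' y' x'' y'' =>
    simp only [wiresG, Multiset.insert_eq_cons, Multiset.mem_cons, Multiset.mem_singleton] at he
    rcases he with rfl | rfl | rfl | rfl
    · simp only [rankG]
      omega
    · simp only [rankG]
      omega
    · simp only [rankG]
      omega
    · simp only [rankG]
      omega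
  | mex a b x x' =>
    simp only [wiresG, Multiset.mem_map] at he
    obtain ⟨y, -, rfl⟩ := he
    simp only [rankG]
    omega
  | reach t a b x y =>
    by_cases ht : t.1 = 0
    · simp only [wiresG, if_pos ht, Multiset.mem_singleton] at he
      subst he
      simp [rankG]
    · simp only [wiresG, if_neg ht, Multiset.mem_cons, Multiset.mem_map] at he
      rcases he with rfl | ⟨z, -, rfl⟩
      · simp only [rankG, pr]
        omega
      · simp only [rankG, pr]
        omega
  | step t a b i x y x' y' =>
    simp only [wiresG, Multiset.insert_eq_cons, Multiset.mem_cons, Multiset.mem_singleton] at he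
    rcases he with rfl | rfl
    · simp [rankG]
    · simp [rankG]
  | left a b x =>
    simp only [wiresG, Multiset.mem_map] at he
    obtain ⟨y, -, rfl⟩ := he
    simp only [rankG]
    omega
  | right a b y =>
    simp only [wiresG, Multiset.mem_map] at he
    obtain ⟨y, -, rfl⟩ := he
    simp only [rankG]
    omega
  | count a b =>
    simp only [wiresG, Multiset.mem_map] at he
    obtain ⟨z, -, rfl⟩ := he
    simp only [rankG]
    omega
  | test a b =>
    simp only [wiresG, Multiset.mem_cons, Multiset.mem_add, Multiset.mem_map] at he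
    rcases he with rfl | (⟨x, -, rfl⟩ | ⟨x, -, rfl⟩) | ⟨x, -, rfl⟩
    · simp only [rankG]
      omega
    · simp only [rankG]
      omega
    · simp only [rankG]
      omega
    · simp only [rankG]
      omega
  | out =>
    simp only [wiresG, Multiset.mem_map] at he
    obtain ⟨y, -, rfl⟩ := he
    simp [rankG]

/-- The gates are finitely many. -/
noncomputable instance : Fintype (Gt W ℓ n) := by
  classical
  let _ : Fintype (Pool.Agent.Y600.Circ.Gt W ℓ n) := (Pool.Agent.Y600.Circ.circ W ℓ n).finite
  exact Fintype.ofEquiv _ (gtEquiv W ℓ n).symm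

/-- The circuit. -/
@[reducible]
noncomputable def circ (W : Type) [Fintype W] (ℓ n : ℕ) :
    Circuit (((W × W × W) ⊕ (W × W × W)) ⊕ ((W × W × W) ⊕ (W × W × W))) Bool Unit where
  Gate := Gt W ℓ n
  finite := inferInstance
  rank := rankG
  read := readG
  wires := wiresG
  rank_lt := rank_ltG
  fn := fnG (Fintype.card W)
  out := .out

theorem size_circ : (circ W ℓ n).size = (Pool.Agent.Y600.Circ.circ W ℓ n).size +
    (Fintype.card W ^ 3 +
    (Fintype.card W ^ ℓ * (Fintype.card W ^ ℓ * Fintype.card W ^ 6) +
    Fintype.card W ^ ℓ * (Fintype.card W ^ ℓ * Fintype.card W ^ 2))) := by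
  classical
  let _ : Fintype (Pool.Agent.Y600.Circ.Gt W ℓ n) := (Pool.Agent.Y600.Circ.circ W ℓ n).finite
  have h1 : (circ W ℓ n).size = Fintype.card (Pool.Agent.Y600.Circ.Gt W ℓ n ⊕ (W × W × W) ⊕
      ((Fin ℓ → W) × (Fin ℓ → W) × W × W × W × W × W × W) ⊕
      ((Fin ℓ → W) × (Fin ℓ → W) × W × W)) :=
    @Fintype.card_congr (Gt W ℓ n) _ inferInstance _ (gtEquiv W ℓ n)
  have h2 : (Pool.Agent.Y600.Circ.circ W ℓ n).size =
      Fintype.card (Pool.Agent.Y600.Circ.Gt W ℓ n) := rfl
  rw [h1, h2]
  simp only [Fintype.card_sum, Fintype.card_prod, Fintype.card_fun, Fintype.card_fin]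
  ring

/-- The action of a relabeling on the gates. -/
def actG (σ : Perm W) : Gt W ℓ n → Gt W ℓ n
  | .bit u v w => .bit u v w
  | .reach t a b x y => .reach t (fun i => σ (a i)) b (σ x) y
  | .step t a b i x y x' y' => .step t (fun i => σ (a i)) b i (σ x) y (σ x') y'
  | .left a b x => .left (fun i => σ (a i)) b (σ x)
  | .right a b y => .right (fun i => σ (a i)) b y
  | .count a b => .count (fun i => σ (a i)) b
  | .mbit u v w => .mbit u v w
  | .mul a b x y x' y' x'' y'' => .mul (fun i => σ (a i)) b (σ x) y (σ x') y' (σ x'') y''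
  | .mex a b x x' => .mex (fun i => σ (a i)) b (σ x) (σ x')
  | .test a b => .test (fun i => σ (a i)) b
  | .out => .out

theorem actG_inv (σ : Perm W) (g : Gt W ℓ n) : actG σ⁻¹ (actG σ g) = g := by
  cases g <;> simp [actG]

/-- The permutation of the gates. -/
def permG (σ : Perm W) : Perm (Gt W ℓ n) where
  toFun := actG σ
  invFun := actG σ⁻¹
  left_inv := actG_inv σ
  right_inv g := by
    have h := actG_inv σ⁻¹ g
    rwa [inv_inv] at h

theorem symmetric_circ : Symmetric (circ W ℓ n) := by
  intro σ
  refine ⟨permG σ, ⟨?_, ?_, ?_, rfl⟩⟩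
  · intro g
    show readG (actG σ g) = (readG g).map _
    cases g with
    | reach t a b x y =>
      by_cases ht : t.1 = 0
      · simp [actG, readG, ht, mvBit]
      · simp [actG, readG, ht]
    | _ => simp [actG, readG, mvBit]
  · intro g
    show wiresG (actG σ g) = (wiresG g).map fun e => (e.1, actG σ e.2)
    cases g with
    | bit u v w => rfl
    | mbit u v w => rfl
    | mul a b x y x' y' x'' y'' => simp [actG, wiresG]
    | mex a b x x' =>
      simp only [actG, wiresG, Multiset.map_map]
      exact map_univ_reindex ((Equiv.refl W).prodCongr ((Equiv.refl W).prodCongr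
        (σ.prodCongr (Equiv.refl W)))) _
    | reach t a b x y =>
      by_cases ht : t.1 = 0
      · simp [actG, wiresG, ht]
      · simp only [actG, wiresG, if_neg ht, Multiset.map_cons, Multiset.map_map]
        congr 1
        exact map_univ_reindex ((Equiv.refl (Fin ℓ)).prodCongr (σ.prodCongr (Equiv.refl W))) _
    | step t a b i x y x' y' => simp [actG, wiresG]
    | left a b x =>
      simp only [actG, wiresG, Multiset.map_map]
      rfl
    | right a b y =>
      simp only [actG, wiresG, Multiset.map_map]
      exact map_univ_reindex σ _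
    | count a b =>
      simp only [actG, wiresG, Multiset.map_map]
      exact map_univ_reindex (σ.prodCongr (Equiv.refl W)) _
    | test a b =>
      simp only [actG, wiresG, Multiset.map_cons, Multiset.map_add, Multiset.map_map]
      congr 2
      · congr 1
        exact map_univ_reindex σ _
      · exact map_univ_reindex (σ.prodCongr σ) _
    | out =>
      simp only [actG, wiresG, Multiset.map_map]
      exact map_univ_reindex ((Equiv.piCongrRight fun _ => σ).prodCongr
        (Equiv.refl (Fin ℓ → W))) _
  · intro g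
    show fnG _ (actG σ g) = fnG _ g
    cases g <;> rfl

end Pool.Agent.U279.RC
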