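import Pool.Agent.U279.RC.UpperVal

/-!
# The symmetric circuit decides isomorphism of rings
-/

set_option autoImplicit false
set_option linter.unusedSectionVars false

namespace Pool.Agent.U279.RC

open Finset Equiv
open Pool.Agent.Y600.Circ (Circuit Table pairBits relabel tab Wd un tab_assoc tab_un tab_idem
  Wd_mono Wd_theta Wd_reach exists_gen)

variable {W : Type}

/-- The additive group of a ring, written multiplicatively. -/
@[reducible] def addG (R : CommRing W) : Group W := (inferInstance : Group (Multiplicative W))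

theorem tab_addG (R : CommRing W) : tab (addG R) = (rtab R).1 := rfl

variable [Fintype W]

/-- The circuit accepts isomorphic rings. -/
theorem accepts (G H : CommRing W) (σ : Perm W) (hσ : relabelR σ (rtab G) = rtab H) :
    (circ W (Nat.log 2 (Fintype.card W)) (Fintype.card W)).output
      (ringBits (rtab G, rtab H)) = true := by
  classical
  have hσ1 : relabel σ (rtab G).1 = (rtab H).1 := congrArg Prod.fst hσ
  have hσ2 : relabel σ (rtab G).2 = (rtab H).2 := congrArg Prod.snd hσ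
  have hθ : ∀ x y, σ.symm (tab (addG G) x y) = tab (addG H) (σ.symm x) (σ.symm y) := by
    intro x y
    rw [tab_addG, tab_addG, ← hσ1]
    unfold relabel
    rw [apply_symm_apply, apply_symm_apply]
  have hθm : ∀ x y, (rtab H).2 (σ.symm x) (σ.symm y) = σ.symm ((rtab G).2 x y) := by
    intro x y
    rw [← hσ2]
    unfold relabel
    rw [apply_symm_apply, apply_symm_apply]
  obtain ⟨a, ha⟩ : ∃ a : Fin (Nat.log 2 (Fintype.card W)) → W,
      let _ := addG G; Subgroup.closure (Set.range a) = ⊤ := by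
    let _ := addG G
    exact exists_gen
  have hall : ∀ x, Wd (rtab G).1 (rtab H).1 a (fun i => σ.symm (a i)) (Fintype.card W) x
      (σ.symm x) := by
    intro x
    obtain ⟨y, hy⟩ := Wd_reach (addG G) (addG H) ha (fun i => σ.symm (a i)) x
    have h1 := Wd_theta (addG G) (addG H) hθ a _ _ _ hy
    rw [h1] at hy
    exact hy
  rw [val_out]
  refine ⟨a, fun i => σ.symm (a i), (val_test _ _).2 ⟨?_, ?_, ?_, ?_⟩⟩
  · intro x
    exact ⟨_, hall x⟩
  · intro y
    have h1 := hall (σ y)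
    rw [symm_apply_apply] at h1
    exact ⟨σ y, h1⟩
  · have h1 : (univ.filter fun z : W × W =>
        Wd (rtab G).1 (rtab H).1 a (fun i => σ.symm (a i)) (Fintype.card W + 1) z.1 z.2) =
        univ.image fun x => (x, σ.symm x) := by
      ext z
      rw [mem_filter, mem_image]
      constructor
      · rintro ⟨-, hz⟩
        exact ⟨z.1, mem_univ _, Prod.ext rfl (Wd_theta (addG G) (addG H) hθ a _ _ _ hz).symm⟩
      · rintro ⟨x, -, rfl⟩
        exact ⟨mem_univ _, Wd_mono (hall x)⟩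
    have h2 : (univ.filter fun z : W × W =>
        Wd (rtab G, rtab H).1.1 (rtab G, rtab H).2.1 a (fun i => σ.symm (a i))
          (Fintype.card W + 1) z.1 z.2) = univ.image fun x => (x, σ.symm x) := h1
    rw [h2, card_image_of_injective _ fun x x' h => congrArg Prod.fst h, card_univ]
  · intro x x'
    refine ⟨σ.symm x, σ.symm x', hall x, hall x', ?_⟩
    rw [hθm]
    exact hall _

/-- The circuit rejects rings which are not isomorphic. -/
theorem rejects (G H : CommRing W) {ℓ n : ℕ}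
    (h : (circ W ℓ n).output (ringBits (rtab G, rtab H)) = true) :
    ∃ σ : Perm W, relabelR σ (rtab G) = rtab H := by
  classical
  rw [val_out] at h
  obtain ⟨a, b, h⟩ := h
  rw [val_test] at h
  obtain ⟨h1, h2, h3, h4⟩ := h
  change (∀ x, ∃ y, Wd (tab (addG G)) (tab (addG H)) a b n x y) at h1
  change (∀ y, ∃ x, Wd (tab (addG G)) (tab (addG H)) a b n x y) at h2
  change (univ.filter fun z : W × W =>
    Wd (tab (addG G)) (tab (addG H)) a b (n + 1) z.1 z.2).card = Fintype.card W at h3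
  change (∀ x x', ∃ y y', Wd (tab (addG G)) (tab (addG H)) a b n x y ∧
    Wd (tab (addG G)) (tab (addG H)) a b n x' y' ∧
    Wd (tab (addG G)) (tab (addG H)) a b n ((rtab G).2 x x') ((rtab H).2 y y')) at h4
  obtain ⟨S, hS⟩ : ∃ S : Finset (W × W), S = univ.filter fun z : W × W =>
      Wd (tab (addG G)) (tab (addG H)) a b n z.1 z.2 := ⟨_, rfl⟩
  obtain ⟨S', hS'⟩ : ∃ S' : Finset (W × W), S' = univ.filter fun z : W × W =>
      Wd (tab (addG G)) (tab (addG H)) a b (n + 1) z.1 z.2 := ⟨_, rfl⟩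
  have hmem : ∀ z, z ∈ S ↔ Wd (tab (addG G)) (tab (addG H)) a b n z.1 z.2 := fun z => by
    rw [hS, mem_filter]
    exact and_iff_right (mem_univ _)
  have hmem' : ∀ z, z ∈ S' ↔ Wd (tab (addG G)) (tab (addG H)) a b (n + 1) z.1 z.2 := fun z => by
    rw [hS', mem_filter]
    exact and_iff_right (mem_univ _)
  rw [← hS'] at h3
  have hsub : S ⊆ S' := fun z hz => (hmem' z).2 (Wd_mono ((hmem z).1 hz))
  choose ψ hψ using h1
  choose ψ' hψ' using h2
  have hc1 : (univ.image fun x => (x, ψ x)).card = Fintype.card W := by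
    rw [card_image_of_injective _ fun x x' h => congrArg Prod.fst h, card_univ]
  have hi1 : (univ.image fun x => (x, ψ x)) = S' := by
    refine eq_of_subset_of_card_le ?_ (by rw [h3, hc1])
    intro z hz
    rw [mem_image] at hz
    obtain ⟨x, -, rfl⟩ := hz
    exact hsub ((hmem _).2 (hψ x))
  have hc2 : (univ.image fun y => (ψ' y, y)).card = Fintype.card W := by
    rw [card_image_of_injective _ fun x x' h => congrArg Prod.snd h, card_univ]
  have hi2 : (univ.image fun y => (ψ' y, y)) = S' := by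
    refine eq_of_subset_of_card_le ?_ (by rw [h3, hc2])
    intro z hz
    rw [mem_image] at hz
    obtain ⟨x, -, rfl⟩ := hz
    exact hsub ((hmem _).2 (hψ' x))
  have hSS : S = S' := by
    refine Subset.antisymm hsub ?_
    rw [← hi1]
    intro z hz
    rw [mem_image] at hz
    obtain ⟨x, -, rfl⟩ := hz
    exact (hmem _).2 (hψ x)
  -- the function and its inverse
  have hfun : ∀ x y, (x, y) ∈ S → y = ψ x := by
    intro x y hxy
    rw [hSS, ← hi1, mem_image] at hxy
    obtain ⟨x', -, hx'⟩ := hxy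
    rw [Prod.mk.injEq] at hx'
    rw [← hx'.2, hx'.1]
  have hfun' : ∀ x y, (x, y) ∈ S → x = ψ' y := by
    intro x y hxy
    rw [hSS, ← hi2, mem_image] at hxy
    obtain ⟨x', -, hx'⟩ := hxy
    rw [Prod.mk.injEq] at hx'
    rw [← hx'.1, hx'.2]
  have hψS : ∀ x, (x, ψ x) ∈ S := fun x => (hmem _).2 (hψ x)
  have hψS' : ∀ y, (ψ' y, y) ∈ S := fun y => (hmem _).2 (hψ' y)
  -- closure under the generators
  have hcl : ∀ x y i, (x, y) ∈ S → (tab (addG G) x (a i), tab (addG H) y (b i)) ∈ S := by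
    intro x y i hxy
    rw [hSS, hmem']
    exact Or.inr ⟨i, x, y, (hmem _).1 hxy, rfl, rfl⟩
  have hmul : ∀ t x' y', Wd (tab (addG G)) (tab (addG H)) a b t x' y' → ∀ x y, (x, y) ∈ S →
      (tab (addG G) x x', tab (addG H) y y') ∈ S := by
    intro t
    induction t with
    | zero =>
      rintro x' y' ⟨e1, e2⟩ x y hxy
      rw [tab_idem] at e1 e2
      rwa [e1, e2, tab_un, tab_un]
    | succ t ih =>
      rintro x' y' (e | ⟨i, x'', y'', e1, e2, e3⟩) x y hxy
      · exact ih x' y' e x y hxy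
      · rw [← e2, ← e3, ← tab_assoc, ← tab_assoc]
        exact hcl _ _ i (ih x'' y'' e1 x y hxy)
  let σ : Perm W := ⟨ψ', ψ, fun y => (hfun _ _ (hψS' y)).symm, fun x => (hfun' _ _ (hψS x)).symm⟩
  refine ⟨σ, Prod.ext ?_ ?_⟩
  · funext u v
    show ψ (tab (addG G) (ψ' u) (ψ' v)) = tab (addG H) u v
    exact (hfun _ _ (hmul n (ψ' v) v (hψ' v) _ _ (hψS' u))).symm
  · funext u v
    show ψ ((rtab G).2 (ψ' u) (ψ' v)) = (rtab H).2 u v
    obtain ⟨y, y', e1, e2, e3⟩ := h4 (ψ' u) (ψ' v)
    have f1 := hfun _ _ ((hmem _).2 e1)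
    have f2 := hfun _ _ ((hmem _).2 e2)
    have f3 := hfun _ _ ((hmem _).2 e3)
    have g1 : ψ (ψ' u) = u := (hfun _ _ (hψS' u)).symm
    have g2 : ψ (ψ' v) = v := (hfun _ _ (hψS' v)).symm
    rw [g1] at f1
    rw [g2] at f2
    rw [← f3, f1, f2]

/-- **The symmetric circuit.** -/
theorem decides_circ : DecidesOn (fun _ => True)
    (circ W (Nat.log 2 (Fintype.card W)) (Fintype.card W)) {true} := by
  intro G H _ _
  rw [Set.mem_singleton_iff]
  exact ⟨fun h => rejects G H h, fun ⟨σ, hσ⟩ => accepts G H σ hσ⟩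

theorem size_le (h2 : 2 ≤ Fintype.card W) :
    (circ W (Nat.log 2 (Fintype.card W)) (Fintype.card W)).size ≤
      Fintype.card W ^ (2 * Nat.log 2 (Fintype.card W) + 12) := by
  have h0 := Pool.Agent.Y600.Circ.size_le (W := W) h2
  rw [size_circ]
  obtain ⟨n, hn⟩ : ∃ n, n = Fintype.card W := ⟨_, rfl⟩
  obtain ⟨l, hl⟩ : ∃ l, l = Nat.log 2 n := ⟨_, rfl⟩
  rw [← hn, ← hl] at h0 ⊢
  rw [← hn] at h2
  obtain ⟨P, hP⟩ : ∃ P, P = n ^ l * n ^ l := ⟨_, rfl⟩
  have hP1 : 1 ≤ P := by
    rw [hP]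
    exact Nat.mul_pos (Nat.pow_pos (by omega)) (Nat.pow_pos (by omega))
  have e0 : n ^ (2 * l + 12) = n ^ 2 * (P * n ^ 10) := by
    rw [hP, ← pow_add, ← pow_add, ← pow_add]
    congr 1
    ring
  have e1 : n ^ (2 * l + 10) = P * n ^ 10 := by
    rw [hP, ← pow_add, ← pow_add]
    congr 1
    ring
  have hn10 : ∀ j, j ≤ 10 → n ^ j ≤ n ^ 10 := fun j hj => Nat.pow_le_pow_right (by omega) hj
  have b1 : n ^ 3 ≤ P * n ^ 10 := (hn10 3 (by norm_num)).trans (Nat.le_mul_of_pos_left _ hP1)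
  have b2 : n ^ l * (n ^ l * n ^ 6) ≤ P * n ^ 10 := by
    calc n ^ l * (n ^ l * n ^ 6) = P * n ^ 6 := by
          rw [hP]
          ring
      _ ≤ P * n ^ 10 := Nat.mul_le_mul_left _ (hn10 6 (by norm_num))
  have b3 : n ^ l * (n ^ l * n ^ 2) ≤ P * n ^ 10 := by
    calc n ^ l * (n ^ l * n ^ 2) = P * n ^ 2 := by
          rw [hP]
          ring
      _ ≤ P * n ^ 10 := Nat.mul_le_mul_left _ (hn10 2 (by norm_num))
  have b4 : 4 * (P * n ^ 10) ≤ n ^ 2 * (P * n ^ 10) := by
    refine Nat.mul_le_mul_right _ ?_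
    calc 4 = 2 ^ 2 := by norm_num
      _ ≤ n ^ 2 := Nat.pow_le_pow_left h2 2
  rw [e0]
  rw [e1] at h0
  omega

end Pool.Agent.U279.RC
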