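import Pool.Agent.U279.RC.Upper

/-!
# The values at the gates of the symmetric circuit
-/

set_option autoImplicit false
set_option linter.unusedSectionVars false

namespace Pool.Agent.U279.RC

open Finset Equiv
open Pool.Agent.Y600.Circ (Circuit Table pairBits relabel fAnd fOr fTest map_univ_reindex Wd)

variable {W : Type} {ℓ n : ℕ}

variable [Fintype W] {m m' : Table W × Table W}

theorem val_bit (u v w : W) :
    (circ W ℓ n).eval (ringBits (m, m')) (.bit u v w) = true ↔ m'.1 u v = w := by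
  rw [Pool.Agent.Y600.Circ.eval_eq]
  change fAnd ((some (Sum.inr (Sum.inl (u, v, w)))).map (ringBits (m, m'))) (Multiset.map _ 0) = true ↔ _
  simp [fAnd, ringBits, pairBits]

theorem val_step (t : Fin (n + 2)) (a b : Fin ℓ → W) (i : Fin ℓ) (x y x' y' : W) :
    (circ W ℓ n).eval (ringBits (m, m')) (.step t a b i x y x' y') = true ↔
      (circ W ℓ n).eval (ringBits (m, m')) (.reach t a b x y) = true ∧
        m.1 x (a i) = x' ∧ m'.1 y (b i) = y' := by
  rw [Pool.Agent.Y600.Circ.eval_eq]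
  change fAnd ((some (Sum.inl (Sum.inl (x, a i, x')))).map (ringBits (m, m')))
    (Multiset.map (fun e : Unit × Gt W ℓ n => (e.1, (circ W ℓ n).eval (ringBits (m, m')) e.2))
      {((), Gt.reach t a b x y), ((), Gt.bit y (b i) y')}) = true ↔ _
  simp only [fAnd, Option.map_some, Option.getD_some, Bool.and_eq_true, decide_eq_true_eq,
    Multiset.insert_eq_cons, Multiset.map_cons, Multiset.map_singleton, Multiset.mem_cons,
    Multiset.mem_singleton, forall_eq_or_imp, forall_eq]
  rw [val_bit]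
  have h1 : ringBits (m, m') (Sum.inl (Sum.inl (x, a i, x'))) = true ↔ m.1 x (a i) = x' := by
    simp [ringBits, pairBits]
  rw [h1]
  tauto

theorem val_reach (a b : Fin ℓ → W) (t : ℕ) (ht : t < n + 2) (x y : W) :
    (circ W ℓ n).eval (ringBits (m, m')) (.reach ⟨t, ht⟩ a b x y) = true ↔
      Wd m.1 m'.1 a b t x y := by
  induction t generalizing x y with
  | zero =>
    rw [Pool.Agent.Y600.Circ.eval_eq]
    change fAnd ((some (Sum.inl (Sum.inl (x, x, x)))).map (ringBits (m, m')))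
      (Multiset.map (fun e : Unit × Gt W ℓ n => (e.1, (circ W ℓ n).eval (ringBits (m, m')) e.2))
        {((), Gt.bit y y y)}) = true ↔ _
    simp only [fAnd, Option.map_some, Option.getD_some, Bool.and_eq_true, decide_eq_true_eq,
      Multiset.map_singleton, Multiset.mem_singleton, forall_eq]
    rw [val_bit]
    have h1 : ringBits (m, m') (Sum.inl (Sum.inl (x, x, x))) = true ↔ m.1 x x = x := by
      simp [ringBits, pairBits]
    rw [h1]
    rfl
  | succ t ih =>
    rw [Pool.Agent.Y600.Circ.eval_eq]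
    change fOr none (Multiset.map (fun e : Unit × Gt W ℓ n =>
      (e.1, (circ W ℓ n).eval (ringBits (m, m')) e.2))
      (((), Gt.reach ⟨t, by omega⟩ a b x y) ::ₘ (univ : Finset (Fin ℓ × W × W)).val.map fun z =>
        ((), Gt.step ⟨t, by omega⟩ a b z.1 z.2.1 z.2.2 x y))) = true ↔ _
    simp only [fOr, decide_eq_true_eq, Multiset.map_cons, Multiset.map_map, Multiset.mem_cons,
      Multiset.mem_map, Function.comp_def]
    constructor
    · rintro ⟨q, h | ⟨z, -, rfl⟩, hq⟩
      · rw [h] at hq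
        exact Or.inl ((ih (by omega) x y).1 hq)
      · have h1 := (val_step _ _ _ _ _ _ _ _).1 hq
        exact Or.inr ⟨z.1, z.2.1, z.2.2, (ih (by omega) _ _).1 h1.1, h1.2.1, h1.2.2⟩
    · rintro (h | ⟨i, x', y', h1, h2, h3⟩)
      · exact ⟨_, Or.inl rfl, (ih (by omega) x y).2 h⟩
      · refine ⟨_, Or.inr ⟨(i, x', y'), mem_univ _, rfl⟩, ?_⟩
        exact (val_step _ _ _ _ _ _ _ _).2 ⟨(ih (by omega) _ _).2 h1, h2, h3⟩

theorem val_left (a b : Fin ℓ → W) (x : W) :
    (circ W ℓ n).eval (ringBits (m, m')) (.left a b x) = true ↔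
      ∃ y, Wd m.1 m'.1 a b n x y := by
  rw [Pool.Agent.Y600.Circ.eval_eq]
  change fOr none (Multiset.map (fun e : Unit × Gt W ℓ n =>
    (e.1, (circ W ℓ n).eval (ringBits (m, m')) e.2))
    ((univ : Finset W).val.map fun y => ((), Gt.reach ⟨n, by omega⟩ a b x y))) = true ↔ _
  simp only [fOr, decide_eq_true_eq, Multiset.map_map, Multiset.mem_map, Function.comp_def]
  constructor
  · rintro ⟨q, ⟨y, -, rfl⟩, hq⟩
    exact ⟨y, (val_reach a b n (by omega) x y).1 hq⟩
  · rintro ⟨y, hy⟩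
    exact ⟨_, ⟨y, mem_univ _, rfl⟩, (val_reach a b n (by omega) x y).2 hy⟩

theorem val_right (a b : Fin ℓ → W) (y : W) :
    (circ W ℓ n).eval (ringBits (m, m')) (.right a b y) = true ↔
      ∃ x, Wd m.1 m'.1 a b n x y := by
  rw [Pool.Agent.Y600.Circ.eval_eq]
  change fOr none (Multiset.map (fun e : Unit × Gt W ℓ n =>
    (e.1, (circ W ℓ n).eval (ringBits (m, m')) e.2))
    ((univ : Finset W).val.map fun x => ((), Gt.reach ⟨n, by omega⟩ a b x y))) = true ↔ _
  simp only [fOr, decide_eq_true_eq, Multiset.map_map, Multiset.mem_map, Function.comp_def]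
  constructor
  · rintro ⟨q, ⟨x, -, rfl⟩, hq⟩
    exact ⟨x, (val_reach a b n (by omega) x y).1 hq⟩
  · rintro ⟨x, hx⟩
    exact ⟨_, ⟨x, mem_univ _, rfl⟩, (val_reach a b n (by omega) x y).2 hx⟩

open Classical in
theorem val_count (a b : Fin ℓ → W) :
    (circ W ℓ n).eval (ringBits (m, m')) (.count a b) = true ↔
      (univ.filter fun z : W × W => Wd m.1 m'.1 a b (n + 1) z.1 z.2).card = Fintype.card W := by
  rw [Pool.Agent.Y600.Circ.eval_eq]
  change fTest (Fintype.card W) none (Multiset.map (fun e : Unit × Gt W ℓ n =>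
    (e.1, (circ W ℓ n).eval (ringBits (m, m')) e.2))
    ((univ : Finset (W × W)).val.map fun z =>
        ((), Gt.reach ⟨n + 1, by omega⟩ a b z.1 z.2))) = true ↔ _
  simp only [fTest, decide_eq_true_eq, Multiset.map_map, Function.comp_def]
  have hz3 : Multiset.count ((), true) (Multiset.map (fun z : W × W =>
      ((), (circ W ℓ n).eval (ringBits (m, m')) (Gt.reach ⟨n + 1, by omega⟩ a b z.1 z.2)))
      (univ : Finset (W × W)).val) =
      (univ.filter fun z : W × W => Wd m.1 m'.1 a b (n + 1) z.1 z.2).card := by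
    rw [Multiset.count_map, card_def, filter_val]
    congr 1
    refine Multiset.filter_congr fun z _ => ?_
    rw [← val_reach (n := n) a b (n + 1) (by omega) z.1 z.2, Prod.mk.injEq]
    constructor
    · exact fun h => h.2.symm
    · exact fun h => ⟨rfl, h.symm⟩
  rw [hz3]

theorem val_mbit (u v w : W) :
    (circ W ℓ n).eval (ringBits (m, m')) (.mbit u v w) = true ↔ m'.2 u v = w := by
  rw [Pool.Agent.Y600.Circ.eval_eq]
  change fAnd ((some (Sum.inr (Sum.inr (u, v, w)))).map (ringBits (m, m')))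
    (Multiset.map _ 0) = true ↔ _
  simp [fAnd, ringBits, pairBits]

theorem val_mul (a b : Fin ℓ → W) (x y x' y' x'' y'' : W) :
    (circ W ℓ n).eval (ringBits (m, m')) (.mul a b x y x' y' x'' y'') = true ↔
      (Wd m.1 m'.1 a b n x y ∧ Wd m.1 m'.1 a b n x' y' ∧ Wd m.1 m'.1 a b n x'' y'') ∧
        m.2 x x' = x'' ∧ m'.2 y y' = y'' := by
  rw [Pool.Agent.Y600.Circ.eval_eq]
  change fAnd ((some (Sum.inl (Sum.inr (x, x', x'')))).map (ringBits (m, m')))
    (Multiset.map (fun e : Unit × Gt W ℓ n => (e.1, (circ W ℓ n).eval (ringBits (m, m')) e.2))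
      {((), Gt.reach ⟨n, by omega⟩ a b x y), ((), Gt.reach ⟨n, by omega⟩ a b x' y'),
        ((), Gt.reach ⟨n, by omega⟩ a b x'' y''), ((), Gt.mbit y y' y'')}) = true ↔ _
  simp only [fAnd, Option.map_some, Option.getD_some, Bool.and_eq_true, decide_eq_true_eq,
    Multiset.insert_eq_cons, Multiset.map_cons, Multiset.map_singleton, Multiset.mem_cons,
    Multiset.mem_singleton, forall_eq_or_imp, forall_eq]
  rw [val_mbit, val_reach, val_reach, val_reach]
  have h1 : ringBits (m, m') (Sum.inl (Sum.inr (x, x', x''))) = true ↔ m.2 x x' = x'' := by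
    simp [ringBits, pairBits]
  rw [h1]
  tauto

theorem val_mex (a b : Fin ℓ → W) (x x' : W) :
    (circ W ℓ n).eval (ringBits (m, m')) (.mex a b x x') = true ↔
      ∃ y y', Wd m.1 m'.1 a b n x y ∧ Wd m.1 m'.1 a b n x' y' ∧
        Wd m.1 m'.1 a b n (m.2 x x') (m'.2 y y') := by
  rw [Pool.Agent.Y600.Circ.eval_eq]
  change fOr none (Multiset.map (fun e : Unit × Gt W ℓ n =>
    (e.1, (circ W ℓ n).eval (ringBits (m, m')) e.2))
    ((univ : Finset (W × W × W × W)).val.map fun z =>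
      ((), Gt.mul a b x z.1 x' z.2.1 z.2.2.1 z.2.2.2))) = true ↔ _
  simp only [fOr, decide_eq_true_eq, Multiset.map_map, Multiset.mem_map, Function.comp_def]
  constructor
  · rintro ⟨q, ⟨z, -, rfl⟩, hq⟩
    obtain ⟨⟨h1, h2, h3⟩, h4, h5⟩ := (val_mul a b _ _ _ _ _ _).1 hq
    exact ⟨z.1, z.2.1, h1, h2, by rw [h4, h5]; exact h3⟩
  · rintro ⟨y, y', h1, h2, h3⟩
    exact ⟨_, ⟨(y, y', m.2 x x', m'.2 y y'), mem_univ _, rfl⟩,
      (val_mul a b _ _ _ _ _ _).2 ⟨⟨h1, h2, h3⟩, rfl, rfl⟩⟩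

open Classical in
theorem val_test (a b : Fin ℓ → W) :
    (circ W ℓ n).eval (ringBits (m, m')) (.test a b) = true ↔
      (∀ x, ∃ y, Wd m.1 m'.1 a b n x y) ∧ (∀ y, ∃ x, Wd m.1 m'.1 a b n x y) ∧
        (univ.filter fun z : W × W => Wd m.1 m'.1 a b (n + 1) z.1 z.2).card = Fintype.card W ∧
        ∀ x x', ∃ y y', Wd m.1 m'.1 a b n x y ∧ Wd m.1 m'.1 a b n x' y' ∧
          Wd m.1 m'.1 a b n (m.2 x x') (m'.2 y y') := by
  rw [Pool.Agent.Y600.Circ.eval_eq]
  change fAnd none (Multiset.map (fun e : Unit × Gt W ℓ n =>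
    (e.1, (circ W ℓ n).eval (ringBits (m, m')) e.2))
    (((), Gt.count a b) ::ₘ (((univ : Finset W).val.map fun x => ((), Gt.left a b x)) +
      ((univ : Finset W).val.map fun y => ((), Gt.right a b y)) +
      ((univ : Finset (W × W)).val.map fun z => ((), Gt.mex a b z.1 z.2))))) = true ↔ _
  simp only [fAnd, Option.getD_none, Bool.true_and, decide_eq_true_eq, Multiset.map_cons,
    Multiset.map_add, Multiset.map_map, Function.comp_def, Multiset.mem_cons,
    Multiset.mem_add, Multiset.mem_map]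
  constructor
  · intro h1
    refine ⟨fun x => ?_, fun y => ?_, ?_, fun x x' => ?_⟩
    · exact (val_left a b x).1 (h1 _ (Or.inr (Or.inl (Or.inl ⟨x, mem_univ _, rfl⟩))))
    · exact (val_right a b y).1 (h1 _ (Or.inr (Or.inl (Or.inr ⟨y, mem_univ _, rfl⟩))))
    · exact (val_count a b).1 (h1 _ (Or.inl rfl))
    · exact (val_mex a b x x').1 (h1 _ (Or.inr (Or.inr ⟨(x, x'), mem_univ _, rfl⟩)))
  · rintro ⟨h1, h2, h3, h4⟩
    rintro q (rfl | (⟨x, -, rfl⟩ | ⟨y, -, rfl⟩) | ⟨z, -, rfl⟩)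
    · exact (val_count a b).2 h3
    · exact (val_left a b x).2 (h1 x)
    · exact (val_right a b y).2 (h2 y)
    · exact (val_mex a b z.1 z.2).2 (h4 z.1 z.2)

theorem val_out : (circ W ℓ n).output (ringBits (m, m')) = true ↔
    ∃ a b : Fin ℓ → W, (circ W ℓ n).eval (ringBits (m, m')) (.test a b) = true := by
  unfold Circuit.output
  rw [Pool.Agent.Y600.Circ.eval_eq]
  change fOr none (Multiset.map (fun e : Unit × Gt W ℓ n =>
    (e.1, (circ W ℓ n).eval (ringBits (m, m')) e.2))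
    ((univ : Finset ((Fin ℓ → W) × (Fin ℓ → W))).val.map fun z =>
      ((), Gt.test z.1 z.2))) = true ↔ _
  simp only [fOr, decide_eq_true_eq, Multiset.map_map, Multiset.mem_map, Function.comp_def]
  constructor
  · rintro ⟨q, ⟨z, -, rfl⟩, hq⟩
    exact ⟨z.1, z.2, hq⟩
  · rintro ⟨a, b, h⟩
    exact ⟨_, ⟨(a, b), mem_univ _, rfl⟩, h⟩

end Pool.Agent.U279.RC
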